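import Pool.Agent.helper57.MS.Spec3

set_option autoImplicit false

open Finset

namespace Pool.Agent.helper57.MS

open Pool.Agent.RRank Pool.Agent.helper26.IM

/-- the pull-back of a bipartition -/
theorem UMC_parts {d m : ℕ} (φ : Fin d → Fin m) (B : Finset (Fin m)) (I : Finset (Fin d))
    (hI : univ.filter (fun x => φ x ∈ B) = I) :
    (((({B, Bᶜ} : Finset (Finset (Fin m))).erase ∅).image
      (fun J => univ.filter (fun x => φ x ∈ J))).erase ∅) =
      (({I, Iᶜ} : Finset (Finset (Fin d))).erase ∅) := by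
  have hIc : univ.filter (fun x => φ x ∈ Bᶜ) = Iᶜ := by
    rw [← hI]
    ext x
    simp
  have h0 : univ.filter (fun x => φ x ∈ (∅ : Finset (Fin m))) = (∅ : Finset (Fin d)) := by
    ext x
    simp
  ext L
  rw [mem_erase, mem_erase, mem_image, mem_insert, mem_singleton]
  constructor
  · rintro ⟨hL, J, hJ, rfl⟩
    refine ⟨hL, ?_⟩
    rw [mem_erase, mem_insert, mem_singleton] at hJ
    rcases hJ.2 with rfl | rfl
    · exact Or.inl hI
    · exact Or.inr hIc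
  · rintro ⟨hL, h1⟩
    refine ⟨hL, ?_⟩
    rcases h1 with h1 | h1
    · refine ⟨B, ?_, hI.trans h1.symm⟩
      rw [mem_erase, mem_insert]
      refine ⟨?_, Or.inl rfl⟩
      intro h2
      apply hL
      rw [h1, ← hI, h2]
      exact h0
    · refine ⟨Bᶜ, ?_, hIc.trans h1.symm⟩
      rw [mem_erase, mem_insert, mem_singleton]
      refine ⟨?_, Or.inr rfl⟩
      intro h2
      apply hL
      rw [h1, ← hIc, h2]
      exact h0

/-- enumeration of a finite nonempty set -/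
theorem UMC_enum {α : Type} [Finite α] (R : Set α) (hR : R.Nonempty) (m : ℕ) (hm : R.ncard ≤ m) :
    ∃ e : Fin m → α, (∀ i, e i ∈ R) ∧ ∀ a ∈ R, ∃ i, e i = a := by
  classical
  obtain ⟨a₀, ha₀⟩ := hR
  have hfin : R.Finite := Set.toFinite R
  have hc : hfin.toFinset.card ≤ m := by
    rw [← Set.ncard_eq_toFinset_card R hfin]
    exact hm
  let E := hfin.toFinset.equivFin
  refine ⟨fun i => if h : (i : ℕ) < hfin.toFinset.card then (E.symm ⟨i, h⟩).1 else a₀, ?_, ?_⟩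
  · intro i
    by_cases h : (i : ℕ) < hfin.toFinset.card
    · simp only [h, dif_pos]
      exact hfin.mem_toFinset.1 (E.symm ⟨i, h⟩).2
    · simp only [h, dif_neg, not_false_iff]
      exact ha₀
  · intro a ha
    have ha' : a ∈ hfin.toFinset := hfin.mem_toFinset.2 ha
    refine ⟨⟨(E ⟨a, ha'⟩ : ℕ), lt_of_lt_of_le (E ⟨a, ha'⟩).2 hc⟩, ?_⟩
    have h : ((E ⟨a, ha'⟩ : ℕ)) < hfin.toFinset.card := (E ⟨a, ha'⟩).2
    simp only [h, dif_pos]
    rw [Fin.eta, E.symm_apply_apply]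

theorem UMC (hTH5 : TH5_stmt) (hBLK : BLK_stmt) (hQDS : QDS_stmt) (hBPE : BPE_stmt) :
    UMC_stmt := by
  intro m 𝓚 hUM d hd R hR hm
  apply hTH5 d hd 𝓚 R
  intro f _
  obtain ⟨e, he, he'⟩ := UMC_enum R hR m hm
  let φ : Fin d → Fin (2 ^ m) := fun x =>
    ⟨Nat.ofBits (fun i : Fin m => decide (x ∈ f (e i))), Nat.ofBits_lt_two_pow _⟩
  have hφ : ∀ i : Fin m, univ.filter (fun x => φ x ∈
      univ.filter (fun y : Fin (2 ^ m) => (y : ℕ).testBit i = true)) = f (e i) := by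
    intro i
    ext x
    rw [mem_filter, mem_filter]
    have h1 : ((φ x : Fin (2 ^ m)) : ℕ).testBit i = decide (x ∈ f (e i)) :=
      Nat.testBit_ofBits_lt _ _ i.2
    rw [h1, decide_eq_true_iff]
    exact ⟨fun h => h.2.2, fun h => ⟨mem_univ _, mem_univ _, h⟩⟩
  refine hQDS d 𝓚 (pull φ (UM m)) (Rf R f) ?_ ?_ (hBLK d (2 ^ m) hd φ 𝓚 (UM m) hUM)
  · rintro P ⟨P', ⟨i, hi, hP'⟩, hP⟩
    refine ⟨P, ⟨e ⟨i, hi⟩, he _, ?_⟩, le_refl _⟩
    show P.parts = _
    have h2 : P'.parts = _ := hP'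
    rw [hP, h2]
    exact UMC_parts φ _ _ (hφ ⟨i, hi⟩)
  · rintro P ⟨P', hP', hP⟩
    obtain ⟨i, rfl⟩ := he' P' hP'
    obtain ⟨Q, hQ⟩ := (hBPE (2 ^ m) (by positivity)
      (univ.filter (fun y : Fin (2 ^ m) => (y : ℕ).testBit i = true))).1
    refine ⟨P, ⟨Q, ⟨i, i.2, hQ⟩, ?_⟩, le_refl _⟩
    have h2 : Q.parts = _ := hQ
    have h3 : P.parts = _ := hP
    rw [h2, h3]
    exact (UMC_parts φ _ _ (hφ i)).symm

end Pool.Agent.helper57.MS
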