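import Pool.Agent.helper57.MS.Spec

set_option autoImplicit false

open Finset

namespace Pool.Agent.helper57.MS

open Pool.Agent.RRank Pool.Agent.helper26.IM

theorem HMI_apply {d l : ℕ} {Q : Fin d → Type} {K : Type} [Field K] (A : Finset (Fin d))
    (g : ((α : Fin d) → Q α) → K) (x : (w : Fin d × Fin l) → Q w.1) :
    H l A g x = ∑ σ : Fin d → Equiv.Perm (Fin l), sg K A σ *
      ∏ i : Fin l, g (fun α => x (α, σ α i)) := by
  unfold H cop
  rw [Finset.sum_apply]
  refine Finset.sum_congr rfl (fun σ _ => ?_)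
  rw [Pi.smul_apply, Finset.prod_apply, smul_eq_mul]

theorem HMI (hHVN : HVN_stmt) : HMI_stmt := by
  classical
  intro K _ d l Q R T hT A hA
  funext x
  let X : (α : Fin d) → Finset (Q α) := fun α => univ.image (fun j : Fin l => x (α, j))
  have hX : ∀ α, (X α).card ≤ l := fun α => by
    refine (Finset.card_image_le).trans ?_
    rw [Finset.card_univ, Fintype.card_fin]
  obtain ⟨r, hr, hs⟩ := exists_sumOf_of_rank_lt (hT X hX)
  have h1 := hHVN K d l r (fun α => X α) R (minor T X) hr hs A hA
  have h2 := congrFun h1 (fun w => ⟨x w, Finset.mem_image.2 ⟨w.2, mem_univ _, rfl⟩⟩)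
  rw [HMI_apply] at h2
  rw [HMI_apply]
  exact h2

end Pool.Agent.helper57.MS
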